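import Pool.Agent.W670.TL.Defs

set_option autoImplicit false

namespace Pool.Agent.W92.TL

open NumberField

theorem ram : Pool.Agent.W670.TL.S_RAM := by
  intro M _ _ q p a hp hq ha
  by_contra hnd
  have hpZ : Prime (p : ℤ) := Nat.prime_iff_prime_int.1 hp
  have hunr := (NumberField.not_dvd_discr_iff_forall_mem M (𝓞 M) hpZ).1 hnd
  -- the integral element
  have hint : IsIntegral ℤ a := by
    apply IsIntegral.of_pow (n := q) (by omega)
    rw [ha]
    have h : IsIntegral ℤ (algebraMap ℤ M (p : ℤ)) := isIntegral_algebraMap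
    simpa using h
  let a' : 𝓞 M := ⟨a, hint⟩
  have ha' : a' ^ q = ((p : ℕ) : 𝓞 M) := by
    apply RingOfIntegers.ext
    change ((a' ^ q : 𝓞 M) : M) = _
    push_cast
    exact ha
  have hmax : (Ideal.span {(p : ℤ)}).IsMaximal :=
    PrincipalIdealRing.isMaximal_of_irreducible hpZ.irreducible
  obtain ⟨P, hPm, hPl⟩ := Ideal.exists_maximal_ideal_liesOver_of_isIntegral
    (Ideal.span {(p : ℤ)}) (S := 𝓞 M)
  have hpP : ((p : ℤ) : 𝓞 M) ∈ P := by
    have : (p : ℤ) ∈ P.under ℤ := by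
      rw [← hPl.over]
      exact Ideal.mem_span_singleton_self _
    simpa using this
  have hPp : P.IsPrime := hPm.isPrime
  have hu := hunr P hPp hpP
  have haP : a' ∈ P := by
    apply hPp.mem_of_pow_mem q
    rw [ha']
    simpa using hpP
  have hdvd : P ^ 2 ∣ (Ideal.span {(p : ℤ)}).map (algebraMap ℤ (𝓞 M)) := by
    rw [Ideal.map_span, Set.image_singleton]
    have e1 : (algebraMap ℤ (𝓞 M)) (p : ℤ) = a' ^ q := by
      rw [ha']; simp
    rw [e1, ← Ideal.span_singleton_pow]
    have h1 : P ∣ Ideal.span {a'} := by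
      rw [Ideal.dvd_span_singleton]; exact haP
    exact (pow_dvd_pow_of_dvd h1 2).trans (pow_dvd_pow _ hq)
  have hne : Ideal.span {(p : ℤ)} ≠ ⊥ := by
    rw [Ne, Ideal.span_singleton_eq_bot]
    exact hpZ.ne_zero
  have hd := pow_sub_one_dvd_differentIdeal ℤ (B := 𝓞 M) P 2 hne hdvd
  rw [show 2 - 1 = 1 from rfl, pow_one] at hd
  exact (dvd_differentIdeal_iff.1 hd) hu

end Pool.Agent.W92.TL
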